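import Pool.Agent.V11251.DS.ArbI

/-!
# Primes `p_n + 2 P(n)` for linear polynomials `P` with palindromic constant terms

The analytic input (the laws of the random integers, second moments of the error for one form with arbitrary weights) is
in the starting files `Pool.Agent.H373R2.T7`, `Pool.Agent.W93`, `Pool.Agent.TH872`; new are the systems of several forms
with arbitrary weights and the passage to primes (`Pool.Agent.V11251.DS`).
-/

set_option autoImplicit false

namespace Pool.Agent.Results.MP_3aaefc_nt.PalindromicConstants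

open Finset

/-- `v` is a palindrome with exactly `k` digits in base `b`: the digit number `j` (which is
`v / b ^ j % b`) is equal to the digit number `k - 1 - j`, for all `j < k`. -/
def IsPalindrome (b k v : ℕ) : Prop :=
  b ^ (k - 1) ≤ v ∧ v < b ^ k ∧ ∀ j < k, v / b ^ j % b = v / b ^ (k - 1 - j) % b

open Classical in
/-- The palindromes with exactly `k` digits in base `b`. -/
noncomputable def pal (b k : ℕ) : Finset ℕ := (range (b ^ k)).filter (IsPalindrome b k)

open Classical in
/-- The sieve model of the indicator function of the primes: `1 / (log x ∏_{p ≤ z} (1 - 1 / p))` if `x ≥ 2` has no prime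
factor `≤ z`, and `0` if `x = 0` or if `x` has a prime factor `≤ z` (for `x = 1` the logarithm is replaced by `log 2`). -/
noncomputable def model (z x : ℕ) : ℝ :=
  if 1 ≤ x ∧ ∀ p : ℕ, p.Prime → p ≤ z → ¬ p ∣ x then
    1 / (Real.log (max x 2 : ℕ) * ∏ p ∈ (Icc 1 z).filter Nat.Prime, (1 - 1 / (p : ℝ))) else 0

/-- The `n`-th prime, with `p_1 = 2`. -/
noncomputable def pr (n : ℕ) : ℕ := Nat.nth Nat.Prime (n - 1)

open Classical in
/-- The numbers `m ≤ X` of the form `p_n + 2 a n`, `n ≥ 1`. Different `n` give different numbers `m`, as `p_n + 2 a n`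
increases with `n`. -/
noncomputable def values (a X : ℕ) : Finset ℕ := (Icc 1 X).filter (fun m => ∃ n, 1 ≤ n ∧ pr n + 2 * a * n = m)

open Classical in
/-- The numbers `m = p_n + 2 a n ≤ X` for which all the numbers `m + 2 C i = p_n + 2 (a n + C i)` are primes, that is,
`p_n + 2 P(n)` is a prime for all the linear polynomials `P = a x + C i`. -/
noncomputable def primeValues {s : ℕ} (a : ℕ) (C : Fin s → ℕ) (X : ℕ) : Finset ℕ :=
  (values a X).filter (fun m => ∀ i, (m + 2 * C i).Prime)

/-- For all `a ≤ log ^ K N` and all `X ≤ N`, the number of the `m = p_n + 2 a n ≤ X` for which all the numbers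
`m + 2 C i = p_n + 2 (a n + C i)` are primes is equal to the sum of the products of the models of `m + 2 C i` over all the
`m = p_n + 2 a n ≤ X`, up to an error of at most `N / log ^ U N`. -/
def Good {s : ℕ} (z K U N : ℕ) (C : Fin s → ℕ) : Prop :=
  ∀ a : ℕ, (a : ℝ) ≤ Real.log N ^ K → ∀ X ≤ N,
    |((primeValues a C X).card : ℝ) - ∑ m ∈ values a X, ∏ i, model z (m + 2 * C i)| ≤ N / Real.log N ^ U

open Classical in
/-- Let `s`, bases `b i ≥ 2` and `κ i ≥ 1` (`i < s`), `B`, `K` and `U` be fixed, let `E` be a sufficiently large exponent,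
let `N` be large, `log ^ E N ≤ z ≤ log ^ (E + 1) N`, let `k i` be lengths with `N / B ≤ b i ^ k i ≤ B N`, and let
`0 ≤ c i ≤ B N`. Then all the vectors `(v 1, ..., v s)` of palindromes `v i` with exactly `k i` digits in base `b i`, with
the exception of a proportion of at most `1 / log ^ U N` of these vectors, have the following property with
`C i = c i + κ i v i`, for all `a ≤ log ^ K N` and all `X ≤ N`: the number of the `n` with `p_n + 2 a n ≤ X` for which
`p_n + 2 P(n)` is a prime for all the linear polynomials `P = a x + C i` is the number predicted by the sieve model, up to an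
error of at most `N / log ^ U N`: the sum, over the numbers `m = p_n + 2 a n ≤ X` for which no `m + 2 C i` has a prime
factor `≤ z`, of the products of the `1 / (log (m + 2 C i) ∏_{p ≤ z} (1 - 1 / p))`. -/
theorem result (s : ℕ) (b : Fin s → ℕ) (hb : ∀ i, 2 ≤ b i) (κ : Fin s → ℕ) (hκ : ∀ i, 1 ≤ κ i) (B K U : ℕ) :
    ∃ E₀ : ℕ, ∀ E : ℕ, E₀ ≤ E → ∃ N₀ : ℕ, ∀ N, N₀ ≤ N → ∀ k : Fin s → ℕ, (∀ i, N ≤ B * b i ^ k i ∧ b i ^ k i ≤ B * N) →
      ∀ c : Fin s → ℕ, (∀ i, c i ≤ B * N) → ∀ z : ℕ, Real.log N ^ E ≤ z → (z : ℝ) ≤ Real.log N ^ (E + 1) →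
      (((Fintype.piFinset fun i => pal (b i) (k i)).filter fun v => ¬ Good z K U N (fun i => c i + κ i * v i)).card : ℝ) ≤
      ((Fintype.piFinset fun i => pal (b i) (k i)).card : ℝ) / Real.log N ^ U := by
  obtain ⟨E₀, h⟩ := Pool.Agent.V11251.DS.idx_pal s b hb (fun i => ((2 * κ i : ℕ) : ℤ)) (fun _ => 1)
    (fun i => by have := hκ i; exact_mod_cast (by omega : 2 * κ i ≠ 0)) (fun _ => by norm_num) (2 * B) (K + 1) U
  refine ⟨E₀, fun E hE => ?_⟩
  obtain ⟨N₀, h1⟩ := h E hE
  refine ⟨N₀ + 8, fun N hN k hk c hc z hz1 hz2 => ?_⟩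
  have hlog : 2 ≤ Real.log N := by
    have h8 : Real.log 8 ≤ Real.log N := Real.log_le_log (by norm_num) (by exact_mod_cast (by omega : 8 ≤ N))
    have h9 : Real.log 8 = 3 * Real.log 2 := by rw [← Real.log_rpow (by norm_num)]; norm_num
    have := Real.log_two_gt_d9
    linarith
  have hcard : ((range (⌊Real.log N ^ K⌋₊ + 1)).card : ℝ) ≤ Real.log N ^ (K + 1) := by
    have h3 : (1 : ℝ) ≤ Real.log N ^ K := one_le_pow₀ (by linarith)
    have h4 : (⌊Real.log N ^ K⌋₊ : ℝ) ≤ Real.log N ^ K := Nat.floor_le (by positivity)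
    rw [card_range]
    push_cast
    calc (⌊Real.log N ^ K⌋₊ : ℝ) + 1 ≤ 2 * Real.log N ^ K := by linarith
      _ ≤ Real.log N * Real.log N ^ K := mul_le_mul_of_nonneg_right hlog (by linarith)
      _ = Real.log N ^ (K + 1) := by rw [pow_succ]; ring
  have e1 : (Fintype.piFinset fun i => pal (b i) (k i)) =
      Fintype.piFinset (fun i => Pool.Agent.TH872.Mir.Pals (b i) (k i)) := by
    congr 1
  rw [e1]
  refine h1 N (by omega) k (fun i => ⟨(hk i).2.trans (Nat.mul_le_mul_right _ (by omega)),
      (hk i).1.trans (Nat.mul_le_mul_right _ (by omega))⟩) (fun i => ((2 * c i : ℕ) : ℤ))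
    (fun i => by
      have h2 : 2 * c i ≤ 2 * B * N := by
        have := hc i
        calc 2 * c i ≤ 2 * (B * N) := Nat.mul_le_mul_left _ this
          _ = 2 * B * N := by ring
      rw [abs_of_nonneg (by positivity)]
      exact_mod_cast h2) z hz1 hz2 (ℕ) (range (⌊Real.log N ^ K⌋₊ + 1)) (hcard) (fun D => {m | ∃ n, 1 ≤ n ∧ pr n + 2 * D * n = m})
    (fun v => Good z K U N (fun i => c i + κ i * v i)) (fun v hv => ?_)
  intro e he2 X hX
  have h2 := hv e (by
    rw [mem_range]
    exact Nat.lt_succ_of_le (Nat.le_floor he2)) X hX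
  have e2 : ∀ i, ((2 * (c i + κ i * v i) : ℕ) : ℤ) = ((2 * c i : ℕ) : ℤ) + ((2 * κ i : ℕ) : ℤ) * (((v i : ℕ) : ℕ) : ℤ) := fun i => by
    push_cast; ring
  rw [Pool.Agent.V11251.DS.DC_set' _ X z _ _ (values e X) (primeValues e (fun i => c i + κ i * v i) X)
    (fun n => ∏ i, model z (n + 2 * (c i + κ i * v i)))] at h2
  · exact h2
  · intro n
    unfold values
    rw [mem_filter]
    exact Iff.rfl
  · intro n
    unfold primeValues values
    rw [mem_filter, mem_filter, and_assoc]
    apply and_congr Iff.rfl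
    apply and_congr Iff.rfl
    apply forall_congr'
    intro i
    rw [← e2]
    have h3 : (1 * (n : ℤ) + ((2 * (c i + κ i * v i) : ℕ) : ℤ)).toNat = n + 2 * (c i + κ i * v i) := by omega
    rw [h3]
  · intro n _
    apply prod_congr rfl
    intro i _
    rw [← e2, Pool.Agent.V11251.DS.Mo_add]
    rfl

end Pool.Agent.Results.MP_3aaefc_nt.PalindromicConstants
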