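import Pool.Agent.V1137.Pm2

/-!
For most vectors `(c_1, ..., c_r)` of positive integers without local obstruction the numbers
`p_n + 2 c_1, ..., p_n + 2 c_r` are simultaneously prime for the expected number, up to a constant
factor, of indices `n` from any given syndetic set.
-/

set_option autoImplicit false

open Finset Filter Topology

namespace Pool.Agent.Results.MP_3aaefc_nt.SyndeticIndices

/-- The `n`-th prime: `p 1 = 2`, `p 2 = 3`, `p 3 = 5`, and so on. -/
noncomputable def p (n : ℕ) : ℕ := Nat.nth Nat.Prime (n - 1)

/-- Every block of `M` consecutive positive integers contains an element of `S`. -/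
def Syndetic (M : ℕ) (S : Set ℕ) : Prop := ∀ j : ℕ, 1 ≤ j → ∃ i < M, j + i ∈ S

/-- For every prime `l` there is an integer `y` such that `l` divides none of the numbers
`y, y + 2 c_1, ..., y + 2 c_r`. -/
def NoObstruction {r : ℕ} (c : Fin r → ℕ) : Prop :=
  ∀ l : ℕ, l.Prime → ∃ y : ℤ, ¬ (l : ℤ) ∣ y ∧ ∀ j, ¬ (l : ℤ) ∣ y + 2 * c j

open Classical in
/-- The indices `1 ≤ n ≤ x` in `S` with `p_n ≤ x` for which all `p_n + 2 c_j` are prime. -/
noncomputable def indices {r : ℕ} (S : Set ℕ) (c : Fin r → ℕ) (x : ℕ) : Finset ℕ :=
  (Icc 1 x).filter (fun n => n ∈ S ∧ p n ≤ x ∧ ∀ j, (p n + 2 * c j).Prime)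

open Classical in
/-- The vectors with `1 ≤ c_j ≤ K x` without obstruction and with fewer than
`δ x / (log x) ^ (r + 1)` indices. -/
noncomputable def exceptions (r : ℕ) (S : Set ℕ) (δ : ℝ) (K x : ℕ) : Finset (Fin r → ℕ) :=
  (Fintype.piFinset (fun _ : Fin r => Icc 1 (K * x))).filter (fun c => NoObstruction c ∧
    ((indices S c x).card : ℝ) < δ * (x / Real.log x ^ (r + 1)))

open Pool.Agent.V1137.Unav in
lemma meets (M : ℕ) (S : Set ℕ) (hS : Syndetic M S) :
    Meets M 1 {q : ℕ | Nat.primeCounting q ∈ S} := by
  refine ⟨1, fun u v hu hv hc => ?_⟩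
  by_cases huv : u ≤ v
  · obtain ⟨w, hw, hp, hK⟩ := Pool.Agent.TH882.HY.exists_index M S hS (u - 1) (v - u + 1) (by
      refine hc.trans ?_
      apply card_le_card_of_injOn (fun q => q - (u - 1))
      · intro q hq
        rw [mem_coe, mem_filter, mem_Icc] at hq
        have hgoal : q - (u - 1) ∈ (Icc 1 (v - u + 1)).filter (fun w => (u - 1 + w).Prime) := by
          rw [mem_filter, mem_Icc]
          refine ⟨⟨by omega, by omega⟩, ?_⟩
          have : u - 1 + (q - (u - 1)) = q := by omega
          rw [this]
          exact hq.2
        exact mem_coe.2 hgoal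
      · intro q hq q' hq' h
        rw [mem_coe, mem_filter, mem_Icc] at hq hq'
        simp only at h
        omega)
    rw [mem_Icc] at hw
    exact ⟨u - 1 + w, hK, by omega, by omega, hp⟩
  · exfalso
    have h0 : ((Icc u v).filter Nat.Prime).card = 0 := by
      rw [Finset.Icc_eq_empty huv, filter_empty, card_empty]
    obtain ⟨i, hi, -⟩ := hS 1 le_rfl
    omega

open Pool.Agent.V1137.Unav in
/-- **Primes `p_n + 2 c` with the index `n` in a syndetic set.** Let `S` be a set of integers which
meets every block of `M` consecutive positive integers. For all `r`, `K` and `κ > 0` there is `δ > 0`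
such that for all large `x` and all vectors `(c_1, ..., c_r)` of integers `1 ≤ c_j ≤ K x` without
local obstruction, with at most `κ x ^ r` exceptions, there are at least `δ x / (log x) ^ (r + 1)`
indices `n ∈ S` with `p_n ≤ x` for which all `p_n + 2 c_j` are prime. -/
theorem result (M : ℕ) (S : Set ℕ) (hS : Syndetic M S) (r K : ℕ) (κ : ℝ) (hκ : 0 < κ) :
    ∃ δ : ℝ, 0 < δ ∧ ∀ᶠ x : ℕ in atTop,
      ((exceptions r S δ K x).card : ℝ) ≤ κ * (x : ℝ) ^ r := by
  classical
  obtain ⟨δ, hδ, x₀, h⟩ := sys_pm (fun _ : Fin r => 1) (fun _ => Or.inl rfl)
    (fun _ => Polynomial.X) (fun _ => by simp) (fun _ => by simp)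
    {q : ℕ | Nat.primeCounting q ∈ S} (PS_most M 1 one_pos _ (meets M S hS)) (2 * K) κ hκ
  refine ⟨δ, hδ, ?_⟩
  rw [eventually_atTop]
  refine ⟨x₀, fun x hx => le_trans ?_ ((h x hx).trans (le_of_eq ?_))⟩
  · apply Nat.cast_le.2
    apply card_le_card_of_injOn (fun c : Fin r → ℕ => fun j => 2 * c j)
    · intro c hc
      rw [mem_coe] at hc
      unfold exceptions at hc
      rw [mem_filter, Fintype.mem_piFinset] at hc
      apply mem_coe.2
      rw [mem_filter, Fintype.mem_piFinset]
      refine ⟨fun j => ?_, ?_, ?_⟩
      · rw [Polynomial.natDegree_X, pow_one]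
        have h2 := mem_Icc.1 (hc.1 j)
        have e1 : 2 * K * x = 2 * (K * x) := by ring
        have hgoal : 2 * c j ∈ Icc 1 (2 * K * x) := by
          rw [mem_Icc]
          omega
        exact hgoal
      · intro l hl
        obtain ⟨n, hn1, hn2⟩ := hc.2.1 l hl
        refine ⟨n, hn1, fun j hd => hn2 j ?_⟩
        have e1 : ((2 * c j : ℕ) : ℤ) + 1 * (Polynomial.X : Polynomial ℤ).eval n =
            n + 2 * c j := by
          rw [Polynomial.eval_X]
          push_cast
          ring
        rwa [e1] at hd
      · refine lt_of_le_of_lt ?_ hc.2.2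
        apply Nat.cast_le.2
        apply card_le_card_of_injOn Nat.primeCounting
        · intro q hq
          have hq' := mem_coe.1 hq
          unfold Arg at hq'
          rw [mem_filter, mem_Icc] at hq'
          obtain ⟨⟨hq1, hq2⟩, hqp, hqS, hqa⟩ := hq'
          have hpc : 1 ≤ Nat.primeCounting q := by
            have := Nat.monotone_primeCounting hqp.two_le
            have h2 : Nat.primeCounting 2 = 1 := by decide
            omega
          have hpq : p (Nat.primeCounting q) = q := by
            unfold p
            have e1 : Nat.primeCounting q - 1 = Nat.count Nat.Prime q := by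
              unfold Nat.primeCounting Nat.primeCounting'
              rw [Nat.count_succ, if_pos hqp]
              omega
            rw [e1]
            exact Nat.nth_count hqp
          apply mem_coe.2
          unfold indices
          rw [mem_filter, mem_Icc, hpq]
          refine ⟨⟨hpc, ?_⟩, hqS, hq2, fun j => ?_⟩
          · have : Nat.primeCounting q ≤ q := by
              unfold Nat.primeCounting Nat.primeCounting'
              have h1 := Nat.count_le (p := Nat.Prime) (n := q)
              rw [Nat.count_succ, if_pos hqp]
              by_contra hcon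
              have h2 : Nat.count Nat.Prime q = q := by omega
              have h3 := (Nat.count_iff_forall (p := Nat.Prime) (n := q)).1 h2
              have h4 := h3 0 (by omega)
              exact absurd h4 (by norm_num)
            omega
          · have h1 := hqa j
            rw [Polynomial.eval_X] at h1
            have e1 : (((2 * c j : ℕ) : ℤ) + 1 * q).toNat = q + 2 * c j := by omega
            rwa [e1] at h1
        · intro q hq q' hq' heq
          have hq1 := mem_coe.1 hq
          have hq2 := mem_coe.1 hq'
          unfold Arg at hq1 hq2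
          rw [mem_filter] at hq1 hq2
          by_contra hne
          rcases lt_or_gt_of_ne hne with hlt | hlt
          · have h1 : Nat.primeCounting q < Nat.primeCounting q' := by
              unfold Nat.primeCounting Nat.primeCounting'
              exact lt_of_le_of_lt (Nat.count_monotone _ (show q + 1 ≤ q' by omega))
                (Nat.count_strict_mono hq2.2.1 (Nat.lt_succ_self _))
            omega
          · have h1 : Nat.primeCounting q' < Nat.primeCounting q := by
              unfold Nat.primeCounting Nat.primeCounting'
              exact lt_of_le_of_lt (Nat.count_monotone _ (show q' + 1 ≤ q by omega))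
                (Nat.count_strict_mono hq1.2.1 (Nat.lt_succ_self _))
            omega
    · intro c _ c' _ hcc
      funext j
      have := congrFun hcc j
      simp only at this
      omega
  · rw [prod_congr rfl fun j _ => by rw [Polynomial.natDegree_X, pow_one]]
    rw [prod_const, card_univ, Fintype.card_fin]

end Pool.Agent.Results.MP_3aaefc_nt.SyndeticIndices
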